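import Pool.Agent.helper54.V3.SpecT
import Pool.Agent.helper54.CR.Landau

/-!
# Project v3 (MP_af9036_an), part T: module KO1
-/

set_option autoImplicit false

open Complex Metric Set Filter Topology MeasureTheory

noncomputable section

namespace V3

/-- KO1 -/
theorem KO1 : KO1_stmt := by
  refine ⟨8000, by norm_num, ?_⟩
  intro G a r hr hd hinj w hw
  by_contra hnot
  have ha : a ∈ ball a r := mem_ball_self hr
  have hwz : ∀ z ∈ ball a r, w - G z ≠ 0 := by
    intro z hz hc
    exact hnot ⟨z, hz, (sub_eq_zero.1 hc).symm⟩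
  have hwa : w - G a ≠ 0 := hwz a ha
  have hHd : DifferentiableOn ℂ (fun z => (w - G z) / (w - G a)) (ball a r) :=
    ((differentiableOn_const w).sub hd).div_const _
  have hH0 : ∀ z ∈ ball a r, (w - G z) / (w - G a) ≠ 0 := fun z hz =>
    div_ne_zero (hwz z hz) hwa
  obtain ⟨s, hsd, hsa, hs⟩ := Pool.Agent.helper98.ILF.exists_lift_pow (n := 2) two_ne_zero
    (u := (1 : ℂ)) (h := fun z => (w - G z) / (w - G a)) hr hHd hH0
    (by rw [one_pow, div_self hwa])
  have hs0 : ∀ z ∈ ball a r, -s z ≠ 0 := by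
    intro z hz hc
    have h1 := hs z hz
    rw [neg_eq_zero.1 hc] at h1
    exact hH0 z hz (by rw [← h1]; norm_num)
  have hs1 : ∀ z ∈ ball a r, -s z ≠ 1 := by
    intro z hz hc
    have h1 := hs z hz
    have h2 : s z = -1 := by
      rw [← hc, neg_neg]
    rw [h2] at h1
    have h3 : (w - G z) / (w - G a) = 1 := by
      rw [← h1]
      norm_num
    rw [div_eq_one_iff_eq hwa] at h3
    have h4 : G z = G a := sub_right_injective h3
    have h5 : z = a := hinj hz ha h4
    rw [h5, hsa] at h2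
    norm_num at h2
  have hL := Pool.Agent.helper54.CR.landau hr (hsd.neg) hs0 hs1
  have hsat : HasDerivAt s (deriv s a) a :=
    (hsd.differentiableAt (isOpen_ball.mem_nhds ha)).hasDerivAt
  have hGat : HasDerivAt G (deriv G a) a :=
    (hd.differentiableAt (isOpen_ball.mem_nhds ha)).hasDerivAt
  have hHat : HasDerivAt (fun z => (w - G z) / (w - G a)) (-deriv G a / (w - G a)) a :=
    (hGat.const_sub w).div_const _
  have hsq : HasDerivAt (fun z => s z ^ 2) (2 * deriv s a) a := by
    have h1 := hsat.pow 2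
    simp only [hsa] at h1
    norm_num at h1
    exact h1
  have hEq : (fun z => s z ^ 2) =ᶠ[𝓝 a] (fun z => (w - G z) / (w - G a)) := by
    filter_upwards [isOpen_ball.mem_nhds ha] with z hz
    exact hs z hz
  have h2 : 2 * deriv s a = -deriv G a / (w - G a) :=
    (hsq.congr_of_eventuallyEq hEq.symm).unique hHat
  have hds : deriv (-s) a = -deriv s a := hsat.neg.deriv
  have hL' : ‖deriv s a‖ ≤ 4000 / r := by
    have h3 : ‖deriv (-s) a / (-s) a‖ ≤ 4000 / r * (1 + |Real.log ‖(-s) a‖|) := hL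
    rw [hds, Pi.neg_apply, hsa, norm_div, norm_neg, norm_neg, norm_one, div_one, Real.log_one,
      abs_zero, add_zero, mul_one] at h3
    exact h3
  have hnw : 0 < ‖w - G a‖ := norm_pos_iff.2 hwa
  have h5 : 2 * ‖deriv s a‖ = ‖deriv G a‖ / ‖w - G a‖ := by
    have := congrArg norm h2
    rw [norm_mul, norm_div, norm_neg, Complex.norm_ofNat] at this
    exact this
  have h6 : ‖deriv G a‖ ≤ 8000 / r * ‖w - G a‖ := by
    rw [eq_div_iff hnw.ne'] at h5
    rw [← h5]
    have : 2 * ‖deriv s a‖ ≤ 8000 / r := by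
      calc 2 * ‖deriv s a‖ ≤ 2 * (4000 / r) := by linarith
        _ = 8000 / r := by ring
    exact mul_le_mul_of_nonneg_right this hnw.le
  rw [mem_ball, dist_eq_norm] at hw
  have h7 : r * ‖deriv G a‖ / 8000 ≤ ‖w - G a‖ := by
    rw [div_le_iff₀ (by norm_num : (0 : ℝ) < 8000)]
    calc r * ‖deriv G a‖ ≤ r * (8000 / r * ‖w - G a‖) := mul_le_mul_of_nonneg_left h6 hr.le
      _ = ‖w - G a‖ * 8000 := by
        field_simp
  linarith

end V3
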