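import Pool.Agent.helper36.V3.SpecW

/-!
# Project v3 (MP_af9036_an), part W: module FW
-/

set_option autoImplicit false

open Complex Metric Set Filter Topology MeasureTheory MPS Pool.Agent.helper98.ILF Pool.Agent.helper16.Multibrot

noncomputable section

namespace V3W

/-- FW -/
theorem FW (hFV : FV_stmt) (hLGN : LGN_stmt) (hFB : MQ.FB1_stmt) (hZN : MPS.ZN_stmt)
    (hZC : MPS.ZC_stmt) (hZBC : MPS.ZBC_stmt) : FW_stmt := by
  intro n hn r hr
  have hr' : 0 < min r 1 := lt_min hr one_pos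
  have hr1 : min r 1 ≤ 1 := min_le_right _ _
  obtain ⟨ρr, hρr⟩ : ∃ ρr, ρr = min r 1 := ⟨_, rfl⟩
  rw [← hρr] at hr' hr1
  obtain ⟨ε₀, hε₀, hFV'⟩ := hFV n hn (4 / ρr) (by positivity)
  have hε₁ : 0 < min ε₀ 1 := lt_min hε₀ one_pos
  obtain ⟨ε₁, hε₁d⟩ : ∃ ε₁, ε₁ = min ε₀ 1 := ⟨_, rfl⟩
  have hε₁0 : ε₁ ≤ ε₀ := hε₁d ▸ min_le_left _ _
  have hε₁1 : ε₁ ≤ 1 := hε₁d ▸ min_le_right _ _
  rw [← hε₁d] at hε₁
  obtain ⟨ε₂, hε₂, hFB'⟩ := hFB n hn (ε₁ / 2) (by positivity)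
  refine ⟨min (ε₁ / 4) (ε₂ * ρr), lt_min (by positivity) (by positivity), ?_⟩
  intro c hdis k z hk hmin
  have hdis' : Disjoint (ball c ρr) (hyperbolic n) :=
    hdis.mono_left (ball_subset_ball (hρr ▸ min_le_left _ _))
  have hrep := hZN n c ρr hn hdis'
  obtain ⟨zf, hzf, hzc, hper⟩ := hZC n k c ρr hn hk hr'
    (fun c' hc' z' hz' => hrep c' hc' k z' hk hz') z hmin
  have hgt : ∀ c' ∈ ball c ρr, 1 < ‖mlt n k c' (zf c')‖ := by
    intro c' hc'
    refine hrep c' hc' k (zf c') hk ?_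
    have h1 := Function.iterate_minimalPeriod (f := fc n c') (x := zf c')
    rwa [hper c' hc'] at h1
  have hc : c ∈ ball c ρr := mem_ball_self hr'
  have h2 := hZBC (fun c' => mlt n k c' (zf c')) c ρr hr' (FB_mltDiff n k hzf) hgt
  have h1 := hgt c hc
  simp only [hzc] at h1 h2
  obtain ⟨hL0, hL1⟩ := hLGN.2.1 (mlt n k c z) h1
  have hL3 := hLGN.2.2 (mlt n k c z) h1
  have key : min (ε₁ / 4) (ε₂ * ρr) ≤ Real.log ‖mlt n k c z‖ := by
    by_contra hcon
    push Not at hcon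
    have hc1 : Real.log ‖mlt n k c z‖ < ε₁ / 4 := lt_of_lt_of_le hcon (min_le_left _ _)
    have hc2 : Real.log ‖mlt n k c z‖ < ε₂ * ρr := lt_of_lt_of_le hcon (min_le_right _ _)
    rcases le_or_gt ‖mlt n k c z - 1‖ ε₁ with hle | hgt'
    · have h3 := hFV' k (ball c ρr) zf hk isOpen_ball hzf hper c hc (hgt c hc)
        (by rw [hzc]; exact hle.trans hε₁0)
      rw [hzc] at h3
      have h4 : 4 / ρr * ‖mlt n k c z - 1‖ ≤ 2 * ‖mlt n k c z - 1‖ / ρr := by
        refine h3.trans (h2.trans ?_)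
        exact div_le_div_of_nonneg_right (by linarith) hr'.le
      have h5 : 4 / ρr * ‖mlt n k c z - 1‖ = (4 * ‖mlt n k c z - 1‖) / ρr := by ring
      rw [h5, div_le_div_iff_of_pos_right hr'] at h4
      linarith
    · have h6 := hL3 (by linarith)
      have h7 : MQ.Sep1 (ε₁ / 2) (mlt n k c z) := by
        unfold MQ.Sep1
        linarith
      have h8 := hFB' c ρr hr' hr1 hdis' k z hk hmin h7
      linarith
  have hpos : 0 < ‖mlt n k c z‖ := by linarith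
  have h9 := Real.add_one_le_exp (Real.log ‖mlt n k c z‖)
  rw [Real.exp_log hpos] at h9
  linarith

end V3W
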