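import Pool.Agent.helper54.V3.SpecE

/-!
# Project v3 (MP_af9036_an), part E: module PIN
-/

set_option autoImplicit false

open Complex Metric Set Filter Topology MeasureTheory

noncomputable section

namespace V3

theorem PIN_norm (j : ℤ) (s : ℝ) : ‖exp (-(2 * Real.pi * I * j * s))‖ = 1 := by
  have h : (-(2 * Real.pi * I * j * s) : ℂ) = ((-(2 * Real.pi * j * s) : ℝ) : ℂ) * I := by
    push_cast
    ring
  rw [h, Complex.norm_exp_ofReal_mul_I]

theorem PIN_cont (j : ℤ) : Continuous (fun s : ℝ => exp (-(2 * Real.pi * I * j * s))) := by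
  fun_prop

/-- PIN -/
theorem PIN : PIN_stmt := by
  intro B q θ t c j n η δ hq hB hθ hc hδ0 hδ1 hcl
  have hne : ∀ s : ℝ, B (t * (s + η * I)) ≠ 0 := by
    intro s h0
    have h := hcl s
    rw [h0, norm_zero, Complex.ofReal_zero, div_zero, zero_sub, norm_neg, norm_mul, hc,
      PIN_norm, mul_one] at h
    linarith
  have hQ : Continuous (fun s : ℝ => q (t * (s + η * I))) :=
    hq.continuous.comp (by fun_prop)
  have hu : Continuous (fun s : ℝ => ((‖B (t * (s + η * I))‖ : ℝ) : ℂ) / B (t * (s + η * I))) :=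
    (Complex.continuous_ofReal.comp hB.norm).div hB hne
  have hEn : Continuous (fun s : ℝ => En θ B q (t * (s + η * I))) := by
    unfold En
    exact hQ.norm.sub (Complex.continuous_re.comp ((continuous_const.mul hQ).mul hu))
  have hQj : ∀ k : ℤ, Continuous
      (fun s : ℝ => q (t * (s + η * I)) * exp (-(2 * Real.pi * I * k * s))) :=
    fun k => hQ.mul (PIN_cont k)
  have hR : Continuous (fun s : ℝ => (θ * c * (q (t * (s + η * I)) *
      exp (-(2 * Real.pi * I * j * s)))).re) :=
    Complex.continuous_re.comp (continuous_const.mul (hQj j))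
  -- pointwise bound
  have hpt : ∀ s : ℝ, (1 - δ) * ‖q (t * (s + η * I))‖ -
      (θ * c * (q (t * (s + η * I)) * exp (-(2 * Real.pi * I * j * s)))).re ≤
      En θ B q (t * (s + η * I)) := by
    intro s
    unfold En
    have h1 : θ * q (t * (s + η * I)) * (((‖B (t * (s + η * I))‖ : ℝ) : ℂ) / B (t * (s + η * I))) =
        θ * c * (q (t * (s + η * I)) * exp (-(2 * Real.pi * I * j * s))) +
        θ * q (t * (s + η * I)) * (((‖B (t * (s + η * I))‖ : ℝ) : ℂ) / B (t * (s + η * I)) -
          c * exp (-(2 * Real.pi * I * j * s))) := by ring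
    have h2 : (θ * q (t * (s + η * I)) * (((‖B (t * (s + η * I))‖ : ℝ) : ℂ) / B (t * (s + η * I)) -
          c * exp (-(2 * Real.pi * I * j * s)))).re ≤ δ * ‖q (t * (s + η * I))‖ := by
      refine (Complex.re_le_norm _).trans ?_
      rw [norm_mul, norm_mul, hθ, one_mul, mul_comm]
      exact mul_le_mul_of_nonneg_right (hcl s) (norm_nonneg _)
    rw [h1, Complex.add_re]
    linarith
  have hint : ∫ s in (0 : ℝ)..1, ((1 - δ) * ‖q (t * (s + η * I))‖ -
      (θ * c * (q (t * (s + η * I)) * exp (-(2 * Real.pi * I * j * s)))).re) ≤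
      ∫ s in (0 : ℝ)..1, En θ B q (t * (s + η * I)) := by
    refine intervalIntegral.integral_mono zero_le_one ?_ (hEn.intervalIntegrable _ _) hpt
    exact ((continuous_const.mul hQ.norm).sub hR).intervalIntegrable _ _
  have hN : Continuous (fun s : ℝ => (1 - δ) * ‖q (t * (s + η * I))‖) :=
    continuous_const.mul hQ.norm
  have hI1 : IntervalIntegrable (fun s : ℝ => (1 - δ) * ‖q (t * (s + η * I))‖) volume 0 1 :=
    hN.intervalIntegrable _ _
  have hI2 : IntervalIntegrable (fun s : ℝ => (θ * c * (q (t * (s + η * I)) *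
      exp (-(2 * Real.pi * I * j * s)))).re) volume 0 1 := hR.intervalIntegrable _ _
  rw [intervalIntegral.integral_sub hI1 hI2, intervalIntegral.integral_const_mul] at hint
  have hre : ∫ s in (0 : ℝ)..1, (θ * c * (q (t * (s + η * I)) *
      exp (-(2 * Real.pi * I * j * s)))).re ≤
      ‖∫ s in (0 : ℝ)..1, q (t * (s + η * I)) * exp (-(2 * Real.pi * I * j * s))‖ := by
    have hI3 : IntervalIntegrable (fun s : ℝ => θ * c * (q (t * (s + η * I)) *
        exp (-(2 * Real.pi * I * j * s)))) volume 0 1 := by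
      apply Continuous.intervalIntegrable
      exact continuous_const.mul (hQj j)
    have h3 := Complex.reCLM.intervalIntegral_comp_comm hI3
    simp only [Complex.reCLM_apply] at h3
    rw [h3, intervalIntegral.integral_const_mul]
    refine (Complex.re_le_norm _).trans ?_
    rw [norm_mul, norm_mul, hθ, hc, one_mul, one_mul]
  have hnorm : ‖∫ s in (0 : ℝ)..1, q (t * (s + η * I)) * exp (-(2 * Real.pi * I * n * s))‖ ≤
      ∫ s in (0 : ℝ)..1, ‖q (t * (s + η * I))‖ := by
    refine (intervalIntegral.norm_integral_le_integral_norm zero_le_one).trans ?_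
    refine le_of_eq ?_
    refine intervalIntegral.integral_congr fun s _ => ?_
    simp only [norm_mul, PIN_norm, mul_one]
  have h4 := mul_le_mul_of_nonneg_left hnorm (by linarith : (0 : ℝ) ≤ 1 - δ)
  linarith

end V3
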